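import Pool.Agent.Lib.LD77.A
import Pool.Agent.Lib.H36R.CY

/-!
# LD77, file B: `U` is never true for sets of at most two vertices (MP_33911d, form D, S4)
-/

set_option autoImplicit false

namespace LD77

open Finset H98M LD H85TF

variable {V : Type} [DecidableEq V]

/-- (S4) -/
theorem u_two {E : Finset (Sym2 V)} {Y W : Finset V} (h : TCY E Y)
    (h2 : (W ∩ Y).card ≤ 2) : ¬ U E Y W :=
  u_two_of (fun _ _ _ _ h ha hb => H36R.cov_two h ha hb) h h2

end LD77
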