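import Pool.Agent.Lib.LD.Def

/-!
# LD77, file A: reductions keep 2-connectedness; `U` is never true for sets of two vertices and for
cycles (MP_33911d, form D, statements S1, S4, S9)
-/

set_option autoImplicit false

namespace LD77

open Finset H98M LD H85TF

variable {V : Type*} [DecidableEq V]

theorem mem_Y {E : Finset (Sym2 V)} {Y : Finset V} {x y : V} {P Q : Finset V}
    (hs : Sep E Y x y P Q) {v : V} : v ∈ Y ↔ v = x ∨ v = y ∨ v ∈ P ∨ v ∈ Q := by
  rw [← hs.eq]
  simp only [mem_insert, mem_union]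

theorem mem_YQ {E : Finset (Sym2 V)} {Y : Finset V} {x y : V} {P Q : Finset V}
    (hs : Sep E Y x y P Q) {v : V} : v ∈ Y \ Q ↔ v = x ∨ v = y ∨ v ∈ P := by
  rw [mem_sdiff, mem_Y hs]
  constructor
  · rintro ⟨h | h | h | h, h2⟩
    · exact Or.inl h
    · exact Or.inr (Or.inl h)
    · exact Or.inr (Or.inr h)
    · exact absurd h h2
  · rintro (h | h | h)
    · exact ⟨Or.inl h, h ▸ hs.xQ⟩
    · exact ⟨Or.inr (Or.inl h), h ▸ hs.yQ⟩
    · exact ⟨Or.inr (Or.inr (Or.inl h)), disjoint_left.1 hs.dis h⟩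

theorem disc_core {E : Finset (Sym2 V)} {Y : Finset V} {x y : V} {P Q : Finset V}
    (hs : Sep E Y x y P Q) {T C D : Finset V} (hT : T ⊆ Y \ Q) (hD : D.Nonempty)
    (hC : C.Nonempty) (hCD : Disjoint C D) (hun : C ∪ D = T) (hDP : D ⊆ P)
    (hno : ∀ a ∈ C, ∀ b ∈ D, s(a, b) ∉ red E Y x y Q) : Disc (T ∪ Q) E := by
  refine ⟨C ∪ Q, D, hC.mono subset_union_left, hD, ?_, ?_, ?_⟩
  · rw [disjoint_union_left]
    exact ⟨hCD, (hs.dis.mono_left hDP).symm⟩
  · rw [← hun]
    ext v
    simp only [mem_union]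
    tauto
  · intro a ha b hb hab
    rcases mem_union.1 ha with ha | ha
    · refine hno a ha b hb (mem_insert_of_mem (mem_inter.2 ⟨hab, ?_⟩))
      rw [mk_mem_sym2_iff]
      exact ⟨hT (hun ▸ mem_union_left _ ha), hT (hun ▸ mem_union_right _ hb)⟩
    · exact hs.noE b (hDP hb) a ha (by rw [Sym2.eq_swap]; exact hab)

theorem disc_up {E : Finset (Sym2 V)} {Y : Finset V} {x y : V} {P Q : Finset V}
    (hs : Sep E Y x y P Q) {T : Finset V} (hT : T ⊆ Y \ Q) (hxy : x ∈ T ∨ y ∈ T)
    (hd : Disc T (red E Y x y Q)) : Disc (T ∪ Q) E := by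
  obtain ⟨C, D, hC, hD, hCD, hun, hno⟩ := hd
  have hred : s(x, y) ∈ red E Y x y Q := mem_insert_self _ _
  have hno' : ∀ a ∈ D, ∀ b ∈ C, s(a, b) ∉ red E Y x y Q := fun a ha b hb hab =>
    hno b hb a ha (by rw [Sym2.eq_swap]; exact hab)
  have key : ∀ C D : Finset V, Disjoint C D → C ∪ D = T →
      (∀ a ∈ C, ∀ b ∈ D, s(a, b) ∉ red E Y x y Q) → (x ∈ C ∨ y ∈ C) → D ⊆ P := by
    intro C D hCD hun hno hxy v hv
    have hvT : v ∈ T := hun ▸ mem_union_right _ hv
    rcases (mem_YQ hs).1 (hT hvT) with h | h | h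
    · subst h
      rcases hxy with h1 | h1
      · exact absurd hv (disjoint_left.1 hCD h1)
      · exact absurd (by rw [Sym2.eq_swap]; exact hred) (hno y h1 v hv)
    · subst h
      rcases hxy with h1 | h1
      · exact absurd hred (hno x h1 v hv)
      · exact absurd hv (disjoint_left.1 hCD h1)
    · exact h
  by_cases h : x ∈ C ∨ y ∈ C
  · exact disc_core hs hT hD hC hCD hun (key C D hCD hun hno h) hno
  · have h2 : x ∈ D ∨ y ∈ D := by
      push Not at h
      rw [← hun] at hxy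
      rcases hxy with h1 | h1
      · exact Or.inl ((mem_union.1 h1).resolve_left h.1)
      · exact Or.inr ((mem_union.1 h1).resolve_left h.2)
    have hun' : D ∪ C = T := by rw [union_comm]; exact hun
    exact disc_core hs hT hC hD hCD.symm hun' (key D C hCD.symm hun' hno' h2) hno'

/-- (S1) -/
theorem tcy_red {E : Finset (Sym2 V)} {Y : Finset V} {x y : V} {P Q : Finset V}
    (h : TCY E Y) (hs : Sep E Y x y P Q) : TCY (red E Y x y Q) (Y \ Q) := by
  have hQY : Q ⊆ Y := fun v hv => (mem_Y hs).2 (Or.inr (Or.inr (Or.inr hv)))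
  refine ⟨?_, ?_, ?_, ?_, ?_⟩
  · obtain ⟨p, hp⟩ := hs.P0
    have hsub : ({x, y, p} : Finset V) ⊆ Y \ Q := by
      intro v hv
      rw [mem_YQ hs]
      simp only [mem_insert, mem_singleton] at hv
      rcases hv with h | h | h
      · exact Or.inl h
      · exact Or.inr (Or.inl h)
      · exact Or.inr (Or.inr (h ▸ hp))
    have hc : ({x, y, p} : Finset V).card = 3 := by
      rw [card_eq_three]
      exact ⟨x, y, p, hs.ne, fun h => hs.xP (h ▸ hp), fun h => hs.yP (h ▸ hp), rfl⟩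
    rw [← hc]
    exact card_le_card hsub
  · intro e he v hv
    rcases mem_insert.1 he with h1 | h1
    · subst h1
      rw [mem_YQ hs]
      rcases Sym2.mem_iff.1 hv with h | h
      · exact Or.inl h
      · exact Or.inr (Or.inl h)
    · exact mem_sym2_iff.1 (mem_inter.1 h1).2 v hv
  · intro e he
    rcases mem_insert.1 he with h1 | h1
    · subst h1
      rw [Sym2.mk_isDiag_iff]
      exact hs.ne
    · exact h.loop e (mem_inter.1 h1).1
  · intro hd
    have h1 := disc_up hs (subset_refl _) (Or.inl ((mem_YQ hs).2 (Or.inl rfl))) hd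
    rw [sdiff_union_of_subset hQY] at h1
    exact h.conn h1
  · intro z hz hd
    have hxy : x ∈ (Y \ Q).erase z ∨ y ∈ (Y \ Q).erase z := by
      by_cases hzx : x = z
      · right
        exact mem_erase.2 ⟨fun h => hs.ne (hzx.trans h.symm), (mem_YQ hs).2 (Or.inr (Or.inl rfl))⟩
      · left
        exact mem_erase.2 ⟨hzx, (mem_YQ hs).2 (Or.inl rfl)⟩
    have h1 := disc_up hs (erase_subset _ _) hxy hd
    have h2 : (Y \ Q).erase z ∪ Q = Y.erase z := by
      ext v
      simp only [mem_union, mem_erase, mem_sdiff]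
      constructor
      · rintro (h3 | h3)
        · exact ⟨h3.1, h3.2.1⟩
        · exact ⟨fun h4 => (mem_sdiff.1 hz).2 (h4 ▸ h3), hQY h3⟩
      · rintro ⟨h3, h4⟩
        by_cases h5 : v ∈ Q
        · exact Or.inr h5
        · exact Or.inl ⟨h3, h4, h5⟩
    rw [h2] at h1
    exact h.conn' z (mem_sdiff.1 hz).1 h1

/-- `x` has a neighbour in the side `P`. -/
theorem nbr_x {E : Finset (Sym2 V)} {Y : Finset V} {x y : V} {P Q : Finset V}
    (h : TCY E Y) (hs : Sep E Y x y P Q) : ∃ p ∈ P, s(x, p) ∈ E := by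
  by_contra hcon
  push Not at hcon
  refine h.conn' y ((mem_Y hs).2 (Or.inr (Or.inl rfl))) ⟨insert x Q, P, ?_, hs.P0, ?_, ?_, ?_⟩
  · exact ⟨x, mem_insert_self _ _⟩
  · rw [disjoint_insert_left]
    exact ⟨hs.xP, hs.dis.symm⟩
  · ext v
    rw [mem_erase, mem_Y hs]
    simp only [mem_union, mem_insert]
    constructor
    · rintro ((h1 | h1) | h1)
      · exact ⟨fun h2 => hs.ne (h1.symm.trans h2), Or.inl h1⟩
      · exact ⟨fun h2 => hs.yQ (h2 ▸ h1), Or.inr (Or.inr (Or.inr h1))⟩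
      · exact ⟨fun h2 => hs.yP (h2 ▸ h1), Or.inr (Or.inr (Or.inl h1))⟩
    · rintro ⟨h1, h2 | h2 | h2 | h2⟩
      · exact Or.inl (Or.inl h2)
      · exact absurd h2 h1
      · exact Or.inr h2
      · exact Or.inl (Or.inr h2)
  · intro a ha b hb hab
    rcases mem_insert.1 ha with h1 | h1
    · subst h1
      exact hcon b hb hab
    · exact hs.noE b hb a h1 (by rw [Sym2.eq_swap]; exact hab)

theorem dg_x {E : Finset (Sym2 V)} {Y : Finset V} {x y : V} {P Q : Finset V}
    (h : TCY E Y) (hs : Sep E Y x y P Q) (h2 : dg E x = 2) : dg (red E Y x y Q) x = 2 := by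
  obtain ⟨p, hp, hxp⟩ := nbr_x h hs
  obtain ⟨q, hq, hxq⟩ := nbr_x h hs.symm
  have hpq : p ≠ q := fun h => disjoint_left.1 hs.dis hp (h ▸ hq)
  have hE : ({s(x, p), s(x, q)} : Finset (Sym2 V)) = E.filter fun e => x ∈ e := by
    refine eq_of_subset_of_card_le ?_ ?_
    · intro e he
      rw [mem_filter]
      simp only [mem_insert, mem_singleton] at he
      rcases he with h1 | h1
      · subst h1; exact ⟨hxp, by simp⟩
      · subst h1; exact ⟨hxq, by simp⟩
    · have : (E.filter fun e => x ∈ e).card = 2 := h2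
      rw [this, card_pair]
      intro h1
      rw [Sym2.eq_iff] at h1
      rcases h1 with h1 | h1
      · exact hpq h1.2
      · exact hpq (h1.2.trans h1.1)
  have hred : (red E Y x y Q).filter (fun e => x ∈ e) = {s(x, y), s(x, p)} := by
    ext e
    rw [mem_filter]
    simp only [mem_insert, mem_singleton, red]
    constructor
    · rintro ⟨h1 | h1, h3⟩
      · exact Or.inl h1
      · right
        have h4 : e ∈ E.filter fun e => x ∈ e := mem_filter.2 ⟨(mem_inter.1 h1).1, h3⟩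
        rw [← hE] at h4
        simp only [mem_insert, mem_singleton] at h4
        rcases h4 with h4 | h4
        · exact h4
        · subst h4
          have := mem_sym2_iff.1 (mem_inter.1 h1).2 q (by simp)
          exact absurd hq (mem_sdiff.1 this).2
    · rintro (h1 | h1)
      · subst h1
        exact ⟨Or.inl rfl, by simp⟩
      · subst h1
        refine ⟨Or.inr (mem_inter.2 ⟨hxp, ?_⟩), by simp⟩
        rw [mk_mem_sym2_iff]
        exact ⟨(mem_YQ hs).2 (Or.inl rfl), (mem_YQ hs).2 (Or.inr (Or.inr hp))⟩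
  show ((red E Y x y Q).filter (fun e => x ∈ e)).card = 2
  rw [hred, card_pair]
  intro h1
  rw [Sym2.eq_iff] at h1
  rcases h1 with h1 | h1
  · exact hs.yP (h1.2 ▸ hp)
  · exact hs.ne h1.2.symm

theorem red_flip {E : Finset (Sym2 V)} {Y : Finset V} {x y : V} {Q : Finset V} :
    red E Y y x Q = red E Y x y Q := by
  unfold red
  rw [Sym2.eq_swap]

theorem dg_P {E : Finset (Sym2 V)} {Y : Finset V} {x y : V} {P Q : Finset V}
    (h : TCY E Y) (hs : Sep E Y x y P Q) {v : V} (hv : v ∈ P) :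
    dg (red E Y x y Q) v = dg E v := by
  unfold dg
  refine congrArg card ?_
  ext e
  rw [mem_filter, mem_filter]
  constructor
  · rintro ⟨h1, h2⟩
    rcases mem_insert.1 h1 with h1 | h1
    · subst h1
      rcases Sym2.mem_iff.1 h2 with h3 | h3
      · exact absurd (h3 ▸ hv) hs.xP
      · exact absurd (h3 ▸ hv) hs.yP
    · exact ⟨(mem_inter.1 h1).1, h2⟩
  · rintro ⟨h1, h2⟩
    refine ⟨mem_insert_of_mem (mem_inter.2 ⟨h1, ?_⟩), h2⟩
    obtain ⟨w, rfl⟩ := h2
    rw [mk_mem_sym2_iff]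
    refine ⟨(mem_YQ hs).2 (Or.inr (Or.inr hv)), mem_sdiff.2 ⟨h.sub _ h1 w (by simp), ?_⟩⟩
    intro hw
    exact hs.noE v hv w hw h1

/-- All degrees stay `2`. -/
theorem dg_red {E : Finset (Sym2 V)} {Y : Finset V} {x y : V} {P Q : Finset V}
    (h : TCY E Y) (hs : Sep E Y x y P Q) (h2 : ∀ v ∈ Y, dg E v = 2) :
    ∀ v ∈ Y \ Q, dg (red E Y x y Q) v = 2 := by
  intro v hv
  rcases (mem_YQ hs).1 hv with h1 | h1 | h1
  · subst h1
    exact dg_x h hs (h2 _ (mem_sdiff.1 hv).1)
  · subst h1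
    rw [← red_flip]
    exact dg_x h hs.flip (h2 _ (mem_sdiff.1 hv).1)
  · rw [dg_P h hs h1]
    exact h2 _ (mem_sdiff.1 hv).1

/-- (S9) -/
theorem u_cycle {E : Finset (Sym2 V)} {Y W : Finset V} (h : TCY E Y)
    (h2 : ∀ v ∈ Y, dg E v = 2) : ¬ U E Y W := by
  intro hU
  induction hU with
  | @base E Y W h1 =>
    refine h1 ⟨E, subset_refl _, ?_, fun v hv => h2 v (mem_inter.1 hv).2⟩
    intro v
    by_cases hv : v ∈ Y
    · exact Or.inr (h2 v hv)
    · left
      unfold dg
      rw [card_eq_zero, filter_eq_empty_iff]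
      exact fun e he hve => hv (h.sub e he v hve)
  | step hs _ ih => exact ih (tcy_red h hs) (dg_red h hs h2)

/-- (S4), from (S3) -/
theorem u_two_of (S3 : ∀ (E : Finset (Sym2 V)) (Y : Finset V) (a b : V), TCY E Y → a ∈ Y → b ∈ Y →
    Cov E {a, b}) {E : Finset (Sym2 V)} {Y W : Finset V} (h : TCY E Y)
    (h2 : (W ∩ Y).card ≤ 2) : ¬ U E Y W := by
  intro hU
  induction hU with
  | @base E Y W h1 =>
    apply h1
    obtain ⟨T, hT1, hT2, hT3⟩ := exists_subsuperset_card_eq (n := 2) (s := W ∩ Y) (t := Y)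
      inter_subset_right h2 (by have := h.three; omega)
    obtain ⟨a, b, hab, rfl⟩ := card_eq_two.1 hT3
    obtain ⟨F, hF, hd, hA⟩ := S3 E Y a b h (hT2 (by simp)) (hT2 (by simp))
    exact ⟨F, hF, hd, fun v hv => hA v (hT1 hv)⟩
  | @step E Y W x y P Q hs _ ih =>
    refine ih (tcy_red h hs) (le_trans (card_le_card ?_) h2)
    exact inter_subset_inter_left sdiff_subset

end LD77
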